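import Mathlib
import Pool.Agent.H42.EUId

namespace Pool.Agent.Results.MP_54d8ad_lc.Full

open Filter Finset Topology NNReal
open scoped Classical

/-- The size of `A ∩ {0, …, n - 1}`. -/
noncomputable def cnt (A : Set ℕ) (n : ℕ) : ℕ := ((range n).filter (· ∈ A)).card

/-- The weights allowed in the definition of an Erdos-Ulam ideal. -/
def IsWeight (h : ℕ → ℝ) : Prop :=
  (∀ i, 0 ≤ h i) ∧ Tendsto (fun n => ∑ i ∈ range n, h i) atTop atTop ∧
    Tendsto (fun n => h n / ∑ i ∈ range (n + 1), h i) atTop (𝓝 0)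

/-- The Erdos-Ulam ideal of the weight `h`. -/
def EU (h : ℕ → ℝ) : Set (Set ℕ) :=
  {A | Tendsto (fun n => (∑ i ∈ (range n).filter (· ∈ A), h i) / ∑ i ∈ range n, h i)
    atTop (𝓝 0)}

/-- The class `H`. -/
def InH (g : ℕ → ℕ) : Prop :=
  Monotone g ∧ Tendsto g atTop atTop ∧ ¬ Tendsto (fun n : ℕ => (n : ℝ) / g n) atTop (𝓝 0)

/-- The simple density ideal of `g`. -/
def Z (g : ℕ → ℕ) : Set (Set ℕ) :=
  {A | Tendsto (fun n => (cnt A n : ℝ) / g n) atTop (𝓝 0)}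

/-- Unbounded modulus functions on the nonnegative reals. -/
def IsUnbddModulus (f : ℝ≥0 → ℝ≥0) : Prop :=
  (∀ x, f x = 0 ↔ x = 0) ∧ (∀ x y, f (x + y) ≤ f x + f y) ∧ Monotone f ∧ ContinuousAt f 0 ∧
    ¬ BddAbove (Set.range f)

/-- The ideal given by `g` and the modulus function `f`. -/
def Zf (g : ℕ → ℕ) (f : ℝ≥0 → ℝ≥0) : Set (Set ℕ) :=
  {A | Tendsto (fun n => (f (cnt A n) : ℝ) / f (g n)) atTop (𝓝 0)}

theorem result (h : ℕ → ℝ) (g : ℕ → ℕ) (f : ℝ≥0 → ℝ≥0) (hh : IsWeight h) (hg : InH g)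
    (hf : IsUnbddModulus f) (he : EU h = Zf g f) : ∃ g', InH g' ∧ Zf g f = Z g' := by
  obtain ⟨h0, h1, h2⟩ := hh
  obtain ⟨f0, f1, f2, -, -⟩ := hf
  have p1 : ∀ n : ℕ, 0 < n → (0 : ℝ) < f n := fun n hn => by
    have : f n ≠ 0 := fun c => hn.ne' (by exact_mod_cast (f0 _).1 c)
    exact_mod_cast pos_iff_ne_zero.2 this
  have p2 : Monotone fun n : ℕ => (f n : ℝ) := fun a b hab => by
    exact_mod_cast f2 (by exact_mod_cast hab)
  have p3 : ∀ M n : ℕ, (f (M * n : ℕ) : ℝ) ≤ M * f n := fun M n => by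
    induction M with
    | zero => simp [(f0 0).2 rfl]
    | succ M ih =>
      have := f1 (M * n : ℕ) n
      rw [Nat.succ_mul, Nat.cast_add, Nat.cast_succ, add_mul, one_mul]
      have h3 : (f ((M * n : ℕ) + n) : ℝ) ≤ f (M * n : ℕ) + f n := by exact_mod_cast this
      linarith
  have hγ : ∀ᶠ n in atTop, (0 : ℝ) < f (g n) :=
    (hg.2.1.eventually_gt_atTop 0).mono fun n hn => p1 _ hn
  have hE : ∀ δ > (0 : ℝ), ∃ M, 0 < M ∧ ∀ᶠ n in atTop, (f (n / M : ℕ) : ℝ) ≤ δ * f (g n) := by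
    intro δ hδ
    by_contra hc
    push Not at hc
    obtain ⟨A, a1, a2⟩ := Pool.Agent.H42.EUId.thin h0 h1 h2
      (fun M n => δ * f (g n) < (f (n / M : ℕ) : ℝ)) hc
    have a3 : A ∈ Zf g f := he ▸ a1
    obtain ⟨n, ⟨M, b1, b2⟩, b3, b4⟩ := (a2.and_eventually
      ((Tendsto.eventually_lt_const hδ a3).and hγ)).exists
    rw [div_lt_iff₀ b4] at b3
    exact (b3.trans b1).not_ge (p2 b2)
  have hc : ∀ A n, cnt A n ≤ n := fun A n => (card_filter_le _ _).trans (card_range n).le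
  have hm : ∀ A, Monotone (cnt A) := fun A a b hab =>
    card_le_card (filter_subset_filter _ (range_mono hab))
  obtain ⟨g', g1, g2, g3⟩ := Pool.Agent.H42.EUId.mono_env
    (fun n => n * (⌊(f (g n) : ℝ) / f n⌋₊ + 1)) (fun n => Nat.le_mul_of_pos_right _ (by omega))
  have hz : Zf g f = Z g' := Set.ext fun A =>
    (Pool.Agent.H42.EUId.key (fun n => f n) (fun n => f (g n)) (fun n => coe_nonneg _) p1 p2 p3
      hγ hE (cnt A) (hc A)).trans (g3 _ (hm A))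
  refine ⟨g', ⟨g1, tendsto_atTop_mono g2 tendsto_id, fun hn => ?_⟩, hz⟩
  have u1 : Set.univ ∈ Z g' := by simpa [Z, cnt] using hn
  rw [← hz, ← he] at u1
  have u2 : Tendsto (fun n => (∑ i ∈ (range n).filter (· ∈ (Set.univ : Set ℕ)), h i) /
      ∑ i ∈ range n, h i) atTop (𝓝 1) := by
    refine tendsto_const_nhds.congr' ((h1.eventually_gt_atTop 0).mono fun n hn => ?_)
    simp [hn.ne']
  exact zero_ne_one (tendsto_nhds_unique u1 (by convert u2))

end Pool.Agent.Results.MP_54d8ad_lc.Full
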